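import Pool.Agent.X104.VL.Main

/-!
# Almost all lattice points are visible along a polynomial with two distinct roots (MP_543a09_nt)

`Visible F a h` is the definition of the problem file: `h = t F(a)` for a rational `t` such that
`a` is the smallest positive integer `u` for which `t F(u)` is a positive integer.

The theorem settles Q1: for EVERY integer polynomial `F` with positive leading coefficient and at
least two distinct complex roots, the density of visible points exists and equals `1`, and the
number of invisible points in `{1..N}²` is `o(N²)`.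

Proof.  If `(a, h)` is invisible (`a` large), write `F(u)/F(a) = k/l` in lowest terms for the
smaller `u`; then `k < l`, `l ∣ h` and `l ∣ F(a)`.
* Large `l`: a divided-difference argument shows that an interval of length `c l^δ` contains at
  most `deg F` arguments `a` with `l ∣ F(a)`; so the points with `l > A` number
  `≪ ∑_{l > A} N² l^(-1-δ)`.
* Fixed `k < l`: along the solutions of `l F(u) = k F(a)` one has `u - α a → β`,
  `α = (k/l)^(1/d)`.  If the set of such `a` had bounded gaps infinitely often, `α` would be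
  rational, `u = α a + β` exactly for large `a`, hence `l F(α X + β) = k F(X)`, which is impossible
  for a polynomial with two distinct roots (take two roots at minimal distance).  So the set of
  such `a` has density zero.
-/

set_option autoImplicit false

open Filter Topology Polynomial Asymptotics

namespace Pool.Agent.Results.MP_543a09_nt.AlmostAllVisible

open Pool.Agent.X104.VL

/-- `(a, h)` is visible along `F`. -/
def VisibleAlong (F : ℤ[X]) (a h : ℕ) : Prop :=
  ∃ t : ℚ, (h : ℚ) = t * ((F.eval (a : ℤ) : ℤ) : ℚ) ∧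
    IsLeast {u : ℕ | 0 < u ∧ ∃ n : ℕ, 0 < n ∧ t * ((F.eval (u : ℤ) : ℤ) : ℚ) = n} a

/-- The visible points of `{1, …, N}²`. -/
def visiblePoints (F : ℤ[X]) (N : ℕ) : Set (ℕ × ℕ) :=
  {p | p.1 ∈ Set.Icc 1 N ∧ p.2 ∈ Set.Icc 1 N ∧ VisibleAlong F p.1 p.2}

/-- The invisible points of `{1, …, N}²`. -/
def invisiblePoints (F : ℤ[X]) (N : ℕ) : Set (ℕ × ℕ) :=
  {p | p.1 ∈ Set.Icc 1 N ∧ p.2 ∈ Set.Icc 1 N ∧ ¬ VisibleAlong F p.1 p.2}

/-- **Theorem.** For every integer polynomial `F` with positive leading coefficient and at least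
two distinct roots in `ℂ`, the density `D(F)` of visible points exists and equals `1`; the number of
invisible points is `o(N²)`. -/
theorem result (F : ℤ[X]) (hF : 0 < F.leadingCoeff)
    (hr : ∃ z w : ℂ, z ≠ w ∧ aeval z F = 0 ∧ aeval w F = 0) :
    Tendsto (fun N : ℕ => ((visiblePoints F N).ncard : ℝ) / (N : ℝ) ^ 2) atTop (𝓝 1) ∧
      (fun N : ℕ => ((invisiblePoints F N).ncard : ℝ)) =o[atTop] fun N : ℕ => (N : ℝ) ^ 2 := by
  classical
  have hinv : ∀ N : ℕ, (invisiblePoints F N).ncard =
      ((Finset.Icc 1 N ×ˢ Finset.Icc 1 N).filter (fun p => ¬ Visible F p.1 p.2)).card := by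
    intro N
    rw [← Set.ncard_coe_finset]
    congr 1
    ext p
    rw [Finset.mem_coe, Finset.mem_filter, Finset.mem_product, Finset.mem_Icc, Finset.mem_Icc]
    exact ⟨fun h => ⟨⟨h.1, h.2.1⟩, h.2.2⟩, fun h => ⟨h.1.1, h.1.2, h.2⟩⟩
  have hvis : ∀ N : ℕ, (visiblePoints F N).ncard =
      ((Finset.Icc 1 N ×ˢ Finset.Icc 1 N).filter (fun p => Visible F p.1 p.2)).card := by
    intro N
    rw [← Set.ncard_coe_finset]
    congr 1
    ext p
    rw [Finset.mem_coe, Finset.mem_filter, Finset.mem_product, Finset.mem_Icc, Finset.mem_Icc]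
    exact ⟨fun h => ⟨⟨h.1, h.2.1⟩, h.2.2⟩, fun h => ⟨h.1.1, h.1.2, h.2⟩⟩
  have hsum : ∀ N : ℕ, ((visiblePoints F N).ncard : ℝ) = (N : ℝ) ^ 2 -
      ((invisiblePoints F N).ncard : ℝ) := by
    intro N
    rw [hinv, hvis]
    have h1 := Finset.card_filter_add_card_filter_not
      (s := Finset.Icc 1 N ×ˢ Finset.Icc 1 N) (fun p => Visible F p.1 p.2)
    rw [Finset.card_product, Nat.card_Icc, Nat.add_sub_cancel] at h1
    have h2 := congrArg (Nat.cast : ℕ → ℝ) h1
    push_cast at h2
    linarith
  have hlo : (fun N : ℕ => ((invisiblePoints F N).ncard : ℝ)) =o[atTop]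
      fun N : ℕ => (N : ℝ) ^ 2 := by
    rw [isLittleO_iff]
    intro ε hε
    filter_upwards [invisible_bound F hF hr ε hε] with N hN
    rw [hinv, Real.norm_eq_abs, Real.norm_eq_abs, abs_of_nonneg (Nat.cast_nonneg _),
      abs_of_nonneg (by positivity)]
    exact hN
  refine ⟨?_, hlo⟩
  have h1 := (tendsto_const_nhds (x := (1 : ℝ))).sub hlo.tendsto_div_nhds_zero
  rw [sub_zero] at h1
  refine h1.congr' ?_
  filter_upwards [eventually_gt_atTop 0] with N hN
  have hN' : (0 : ℝ) < N := by exact_mod_cast hN
  rw [hsum, sub_div, div_self (by positivity)]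

end Pool.Agent.Results.MP_543a09_nt.AlmostAllVisible
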